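import Mathlib
import Pool.Agent.Lib.helper17.RC2

set_option autoImplicit false

namespace Pool.Agent.Results.MP_cf13c7_al.Q1

open FirstOrder FirstOrder.Language

universe u

/-- function symbols of the language of groups -/
inductive Fn : ℕ → Type
  | mul : Fn 2
  | inv : Fn 1
  | one : Fn 0

/-- the language of groups -/
def Lg : FirstOrder.Language.{0, 0} := ⟨Fn, fun _ => Empty⟩

/-- a group as a structure for the language of groups -/
instance str (G : Type u) [Group G] : Lg.Structure G where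
  funMap f x := match f, x with
    | .mul, x => x 0 * x 1
    | .inv, x => (x 0)⁻¹
    | .one, _ => 1
  RelMap r := r.elim

/-- the class of groups satisfying `T` is radical -/
def RadicalClass (T : Lg.Theory) : Prop :=
  (∀ (G H : Type u) [Group G] [Group H] (f : G →* H), Function.Surjective f → G ⊨ T → H ⊨ T) ∧
  (∀ (G : Type u) [Group G] (N : Subgroup G), N.Normal → G ⊨ T → N ⊨ T) ∧
  ∀ (G : Type u) [Group G], sSup {N : Subgroup G | N.Normal ∧ N ⊨ T} = ⊤ → G ⊨ T

/-- every finitely generated subgroup is finite -/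
def LocFin (G : Type u) [Group G] : Prop :=
  ∀ s : Finset G, (Subgroup.closure (s : Set G) : Set G).Finite

open Pool.Agent.Lib.helper17.RC

section
variable {α : Type} {G : Type u} [Group G]

local instance tMul : Mul (Lg.Term α) := ⟨fun a b => Term.func Fn.mul ![a, b]⟩
local instance tInv : Inv (Lg.Term α) := ⟨fun a => Term.func Fn.inv ![a]⟩

@[simp] lemma r_mul (v : α → G) (a b : Lg.Term α) :
    (a * b).realize v = a.realize v * b.realize v := rfl
@[simp] lemma r_inv (v : α → G) (a : Lg.Term α) : (a⁻¹).realize v = (a.realize v)⁻¹ := rfl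
@[simp] lemma r_p (v : α → G) (a : Lg.Term α) (g : Fin 8 → Lg.Term α) :
    (p a g).realize v = p (a.realize v) (fun i => (g i).realize v) := rfl

noncomputable def s1 : Lg.Sentence := Formula.iAlls Unit (Formula.iExs (Fin 8)
  ((Term.var (.inl (.inr ()))).equal (p (Term.var (.inl (.inr ()))) fun i => Term.var (.inr i))))

abbrev V := ((((Empty ⊕ Unit) ⊕ (Fin 8 ⊕ Fin 8)) ⊕ Unit) ⊕ (Fin 8 ⊕ Fin 8)) ⊕ Unit

def tx : Lg.Term V := Term.var (.inl (.inl (.inl (.inl (.inr ())))))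
def ty : Lg.Term V := Term.var (.inl (.inl (.inr ())))
def tk : Lg.Term V := Term.var (.inr ())
def tc (f : Fin 8 → Fin 8 ⊕ Fin 8) : Lg.Term V :=
  let a := p tx fun i => Term.var (.inl (.inl (.inl (.inr (f i)))))
  p (ty * a * ty⁻¹ * a⁻¹) fun i => Term.var (.inl (.inr (f i)))
def tz : Lg.Term V := (tc .inl * tc .inr)⁻¹ * ty

noncomputable def s2 : Lg.Sentence := Formula.iAlls Unit (Formula.iExs (Fin 8 ⊕ Fin 8)
  (Formula.iAlls Unit (Formula.iExs (Fin 8 ⊕ Fin 8) (Formula.iAlls Unit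
    ((tz * (tk * tx * tk⁻¹)).equal (tk * tx * tk⁻¹ * tz))))))

lemma iff_KI : G ⊨ ({s1, s2} : Lg.Theory) ↔ KI (⊤ : Subgroup G) := by
  simp only [Theory.model_insert_iff, Theory.model_singleton_iff, s1, s2, Sentence.Realize,
    Formula.realize_iAlls, Formula.realize_iExs, Formula.realize_equal]
  constructor
  · rintro ⟨h1, h2⟩ x -
    obtain ⟨g, h1⟩ := h1 fun _ => x
    obtain ⟨k, h2⟩ := h2 fun _ => x
    refine ⟨⟨g, fun _ => trivial, h1⟩, _, _, ⟨k ∘ .inl, fun _ => trivial, rfl⟩,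
      ⟨k ∘ .inr, fun _ => trivial, rfl⟩, fun y _ => ?_⟩
    obtain ⟨l, h2⟩ := h2 fun _ => y
    exact ⟨_, _, ⟨l ∘ .inl, fun _ => trivial, rfl⟩, ⟨l ∘ .inr, fun _ => trivial, rfl⟩,
      fun g _ => h2 fun _ => g⟩
  · refine fun h => ⟨fun x => ?_, fun x => ?_⟩
    · obtain ⟨g, -, e⟩ := (h (x ()) trivial).1
      exact ⟨g, e⟩
    · obtain ⟨_, _, ⟨a, -, rfl⟩, ⟨b, -, rfl⟩, h⟩ := (h (x ()) trivial).2
      refine ⟨Sum.elim a b, fun y => ?_⟩
      obtain ⟨_, _, ⟨c, -, rfl⟩, ⟨d, -, rfl⟩, h⟩ := h (y ()) trivial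
      exact ⟨Sum.elim c d, fun g => h (g ()) trivial⟩
end

theorem result : ∃ T : Lg.Theory, RadicalClass.{u} T ∧
    (∃ (G : Type u) (_ : Group G), G ⊨ T ∧ ¬ LocFin G) ∧
    ∃ (G : Type u) (_ : Group G), ¬ G ⊨ T := by
  refine ⟨{s1, s2}, ⟨fun G H _ _ f hf h => ?_, fun G _ N _ h => ?_, fun G _ h => ?_⟩, ?_, ?_⟩
  · exact iff_KI.2 (image f hf fun x => Or.inl (iff_KI.1 h x trivial))
  · exact iff_KI.2 ((KI_iff N).2 (down (iff_KI.1 h) N))
  · refine iff_KI.2 (gen ?_)
    simpa only [iff_KI, KI_iff] using h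
  · have : CharZero (ULift.{u} ℚ) := ⟨fun a b h => Nat.cast_injective (R := ℚ) (congrArg ULift.down h)⟩
    refine ⟨_, _, iff_KI.2 (KI_S (F := AlgebraicClosure (ULift.{u} ℚ))), fun h => inf_S
      (F := AlgebraicClosure (ULift.{u} ℚ)) ?_⟩
    have := h {QuotientGroup.mk' _ (U 1)}
    rwa [Finset.coe_singleton, ← Subgroup.zpowers_eq_closure, finite_zpowers] at this
  · refine ⟨Multiplicative (ULift.{u} ℤ), inferInstance, fun h => ?_⟩
    obtain ⟨g, -, e⟩ := (iff_KI.1 h (Multiplicative.ofAdd ⟨1⟩) trivial).1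
    rw [p_one fun _ => Commute.all _ _] at e
    simpa using congrArg (fun x => x.toAdd.down) e

end Pool.Agent.Results.MP_cf13c7_al.Q1
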